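import Pool.Agent.R688.DP.Final

/-!
# Nearly finitely presented modules over generalized divided power algebras (MP_ae9641_al, Q1)

Over the classical divided power algebra over the local ring `ℤ_(2)`, the kernel of a morphism of
nearly finitely presented graded modules need not be nearly finitely presented.
-/

set_option autoImplicit false

open R688.DP

namespace Pool.Agent.Results.MP_ae9641_al.NotAbelian

/-- There are a noetherian ring `k`, an admissible sequence `π` with infinitely many `π_n` in the
Jacobson radical of `k`, and a morphism of nearly finitely presented graded modules over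
`D(π; k)` whose kernel is not nearly finitely presented. -/
theorem result : ∃ (k : Type) (_ : CommRing k) (_ : IsNoetherianRing k) (π : ℕ → k),
    Admissible k π ∧ {n : ℕ | 2 ≤ n ∧ π n ∈ Ring.jacobson k}.Infinite ∧
    ∃ (M N : GMod k π) (f : GHom M N), IsNfp M ∧ IsNfp N ∧ ¬ IsNfp f.ker :=
  ⟨Z2, inferInstance, inferInstance, pi2, admissible, jacobson, MM, NN, fhom, nfp_MM, nfp_NN,
    not_nfp⟩

end Pool.Agent.Results.MP_ae9641_al.NotAbelian
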